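import Mathlib

namespace Pool.Agent.Results.MP_3790b3_al.FinitePropagationNotFiniteState

/-- A self-similar action of a group `G` on the free monoid over `X`. -/
structure SelfSimilarAction (G X : Type) [Group G] where
  act : G → List X → List X
  res : G → List X → G
  act_one : ∀ w, act 1 w = w
  act_mul : ∀ g h w, act (g * h) w = act g (act h w)
  faithful : ∀ g h, (∀ w, act g w = act h w) → g = h
  act_nil : ∀ g, act g [] = []
  res_nil : ∀ g, res g [] = g
  act_append : ∀ g u v, act g (u ++ v) = act g u ++ act (res g u) v
  res_append : ∀ g u v, res g (u ++ v) = res (res g u) v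
  res_mul : ∀ g h u, res (g * h) u = res g (act h u) * res h u

/-- The action is finite state. -/
def SelfSimilarAction.FiniteState {G X : Type} [Group G] (A : SelfSimilarAction G X) : Prop :=
  ∀ g : G, (Set.range (A.res g)).Finite

/-- The Zappa-Szep product of the action has finite propagation. -/
def SelfSimilarAction.FinitePropagation {G X : Type} [Group G] (A : SelfSimilarAction G X) :
    Prop :=
  ∀ g h : G, ∃ x : List X → G, x [] = 1 ∧
    (Set.range (fun w => (x (A.act g w))⁻¹ * A.res g w * x w)).Finite ∧
    (Set.range (fun w => (x (A.act h w))⁻¹ * A.res h w * x w)).Finite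

/-! ### The example -/

abbrev E : Type := ℕ → ZMod 2

/-- The shift by `n`. -/
def shift (n : ℕ) (g : E) : E := fun i => g (i + n)

/-- Adding a sequence to a word. -/
def addw : E → List (ZMod 2) → List (ZMod 2)
  | _, [] => []
  | g, a :: w => (g 0 + a) :: addw (shift 1 g) w

theorem shift_shift (m n : ℕ) (g : E) : shift m (shift n g) = shift (m + n) g := by
  funext i
  show g (i + m + n) = g (i + (m + n))
  rw [add_assoc]

theorem shift_add (n : ℕ) (g h : E) : shift n (g + h) = shift n g + shift n h := rfl

theorem addw_length (g : E) (w : List (ZMod 2)) : (addw g w).length = w.length := by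
  induction w generalizing g with
  | nil => rfl
  | cons a w ih => show (addw (shift 1 g) w).length + 1 = w.length + 1; rw [ih]

theorem addw_zero (w : List (ZMod 2)) : addw 0 w = w := by
  induction w with
  | nil => rfl
  | cons a w ih =>
    show (0 + a) :: addw (shift 1 0) w = a :: w
    have : shift 1 0 = 0 := rfl
    rw [this, ih, zero_add]

theorem addw_add (g h : E) (w : List (ZMod 2)) : addw (g + h) w = addw g (addw h w) := by
  induction w generalizing g h with
  | nil => rfl
  | cons a w ih =>
    show (g 0 + h 0 + a) :: addw (shift 1 (g + h)) w =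
      (g 0 + (h 0 + a)) :: addw (shift 1 g) (addw (shift 1 h) w)
    rw [shift_add, ih, add_assoc]

theorem addw_append (g : E) (u v : List (ZMod 2)) :
    addw g (u ++ v) = addw g u ++ addw (shift u.length g) v := by
  induction u generalizing g with
  | nil => rfl
  | cons a u ih =>
    show (g 0 + a) :: addw (shift 1 g) (u ++ v) =
      (g 0 + a) :: (addw (shift 1 g) u ++ addw (shift (u.length + 1) g) v)
    rw [ih, shift_shift]

theorem addw_getD (g : E) (w : List (ZMod 2)) (i : ℕ) :
    (addw g w).getD i 0 = if i < w.length then g i + w.getD i 0 else 0 := by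
  induction w generalizing g i with
  | nil => simp [addw]
  | cons a w ih =>
    cases i with
    | zero => simp [addw]
    | succ i =>
      show (addw (shift 1 g) w).getD i 0 = _
      rw [ih]
      simp [shift]

theorem addw_faithful (g h : E) (hgh : ∀ w, addw g w = addw h w) : g = h := by
  funext i
  have h1 := congrArg (fun l => l.getD i 0) (hgh (List.replicate (i + 1) 0))
  simp only [addw_getD, List.length_replicate, Nat.lt_succ_self, if_true] at h1
  exact add_right_cancel h1

/-- All sequences acting by addition; restriction is the shift. -/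
def A : SelfSimilarAction (Multiplicative E) (ZMod 2) where
  act g w := addw (Multiplicative.toAdd g) w
  res g w := Multiplicative.ofAdd (shift w.length (Multiplicative.toAdd g))
  act_one w := addw_zero w
  act_mul g h w := addw_add _ _ w
  faithful g h hgh := addw_faithful _ _ hgh
  act_nil _ := rfl
  res_nil _ := rfl
  act_append g u v := addw_append _ u v
  res_append g u v := by
    have h1 := shift_shift v.length u.length (Multiplicative.toAdd g)
    show Multiplicative.ofAdd (shift (u ++ v).length (Multiplicative.toAdd g)) =
      Multiplicative.ofAdd (shift v.length (shift u.length (Multiplicative.toAdd g)))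
    rw [List.length_append, add_comm]
    exact congrArg Multiplicative.ofAdd h1.symm
  res_mul g h u := by
    show Multiplicative.ofAdd (shift u.length _) =
      Multiplicative.ofAdd (shift (addw _ u).length _) * Multiplicative.ofAdd (shift u.length _)
    rw [addw_length]
    rfl

/-! ### Not finite state -/

open Classical in
/-- The indicator sequence of the powers of two. -/
noncomputable def pw : E := fun i => if ∃ k, i = 2 ^ k then 1 else 0

theorem pw_shift_inj (n m : ℕ) (h : shift n pw = shift m pw) : n = m := by
  wlog hlt : n < m generalizing n m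
  · rcases Nat.lt_trichotomy n m with h1 | h1 | h1
    · exact absurd h1 hlt
    · exact h1
    · exact (this m n h.symm h1).symm
  exfalso
  -- `2 ^ m` is larger than both
  have hm : m < 2 ^ m := Nat.lt_two_pow_self
  have h1 := congrFun h (2 ^ m - n)
  have e1 : shift n pw (2 ^ m - n) = 1 := by
    show pw (2 ^ m - n + n) = 1
    rw [Nat.sub_add_cancel (by omega), pw, if_pos ⟨m, rfl⟩]
  have e2 : shift m pw (2 ^ m - n) = 0 := by
    show pw (2 ^ m - n + m) = 0
    rw [pw, if_neg]
    rintro ⟨k, hk⟩
    have h2 : 2 ^ m < 2 ^ k := by omega
    have h3 : 2 ^ k < 2 ^ (m + 1) := by rw [pow_succ]; omega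
    have h4 := (Nat.pow_lt_pow_iff_right (a := 2) (by norm_num)).mp h2
    have h5 := (Nat.pow_lt_pow_iff_right (a := 2) (by norm_num)).mp h3
    omega
  rw [e1, e2] at h1
  exact one_ne_zero h1

theorem not_finiteState : ¬ A.FiniteState := by
  intro h
  have h1 := h (Multiplicative.ofAdd pw)
  have h2 : Set.range (fun n : ℕ => Multiplicative.ofAdd (shift n pw)) ⊆
      Set.range (A.res (Multiplicative.ofAdd pw)) := by
    rintro _ ⟨n, rfl⟩
    refine ⟨List.replicate n 0, ?_⟩
    show Multiplicative.ofAdd (shift (List.replicate n (0 : ZMod 2)).length pw) = _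
    rw [List.length_replicate]
  refine Set.infinite_range_of_injective ?_ (h1.subset h2)
  intro n m hnm
  exact pw_shift_inj n m hnm

/-! ### Finite propagation -/

/-- Keep the first `n` coordinates. -/
def trunc (n : ℕ) : E →ₗ[ZMod 2] E where
  toFun g := fun i => if i < n then g i else 0
  map_add' g h := by
    funext i
    show (if i < n then (g + h) i else 0) = (if i < n then g i else 0) + (if i < n then h i else 0)
    split_ifs <;> simp
  map_smul' c g := by
    funext i
    show (if i < n then (c • g) i else 0) = c • (if i < n then g i else 0)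
    split_ifs <;> simp

/-- The word as a sequence. -/
def tf (w : List (ZMod 2)) : E := fun i => w.getD i 0

theorem tf_addw (g : E) (w : List (ZMod 2)) : tf (addw g w) = trunc w.length g + tf w := by
  funext i
  show (addw g w).getD i 0 = (if i < w.length then g i else 0) + w.getD i 0
  rw [addw_getD]
  split_ifs with h
  · rfl
  · have : w.getD i 0 = 0 := by
      rw [List.getD_eq_default]
      omega
    rw [this, add_zero]

theorem exists_level (V : Submodule (ZMod 2) E) [Finite V] :
    ∃ n₀ : ℕ, ∀ n, n₀ ≤ n → ∀ v ∈ V, trunc n v = 0 → v = 0 := by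
  classical
  have h1 : ∀ v : V, ∃ i : ℕ, (v : E) ≠ 0 → (v : E) i ≠ 0 := by
    intro v
    by_cases hv : (v : E) = 0
    · exact ⟨0, fun h => absurd hv h⟩
    · obtain ⟨i, hi⟩ := Function.ne_iff.mp hv
      exact ⟨i, fun _ => hi⟩
  choose i hi using h1
  obtain ⟨B, hB⟩ := (Set.finite_range i).bddAbove
  refine ⟨B + 1, fun n hn v hv h0 => ?_⟩
  by_contra hne
  have h2 := hi ⟨v, hv⟩ hne
  have h3 : i ⟨v, hv⟩ ≤ B := hB ⟨_, rfl⟩
  have h4 := congrFun h0 (i ⟨v, hv⟩)
  have h5 : (if i ⟨v, hv⟩ < n then v (i ⟨v, hv⟩) else 0) = 0 := h4
  rw [if_pos (by omega)] at h5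
  exact h2 h5

theorem finitePropagation : A.FinitePropagation := by
  intro g h
  set V : Submodule (ZMod 2) E :=
    Submodule.span (ZMod 2) {Multiplicative.toAdd g, Multiplicative.toAdd h} with hV
  have hfin : Finite V := by
    have h1 : Module.Finite (ZMod 2) V := Module.Finite.span_of_finite _ (Set.toFinite _)
    exact Module.finite_of_finite (ZMod 2)
  obtain ⟨n₀, hn₀⟩ := exists_level V
  have hex : ∀ n : ℕ, ∃ L : E →ₗ[ZMod 2] E, n₀ ≤ n → ∀ v ∈ V, L (trunc n v) = v := by
    intro n
    by_cases hn : n₀ ≤ n
    · have hinj : LinearMap.ker ((trunc n) ∘ₗ V.subtype) = ⊥ := by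
        rw [LinearMap.ker_eq_bot']
        rintro ⟨v, hv⟩ h0
        exact Subtype.ext (hn₀ n hn v hv h0)
      obtain ⟨L, hL⟩ := LinearMap.exists_leftInverse_of_injective _ hinj
      refine ⟨V.subtype ∘ₗ L, fun _ v hv => ?_⟩
      have h1 := LinearMap.congr_fun hL ⟨v, hv⟩
      show ((L (trunc n v) : V) : E) = v
      exact congrArg Subtype.val h1
    · exact ⟨0, fun h => absurd h hn⟩
  choose L hL using hex
  -- the family
  let x : List (ZMod 2) → Multiplicative E := fun w =>
    Multiplicative.ofAdd (shift w.length (L w.length (tf w)))
  have hx0 : x [] = 1 := by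
    show Multiplicative.ofAdd (shift 0 (L 0 (tf []))) = 1
    have : tf [] = 0 := rfl
    rw [this, map_zero]
    rfl
  have key : ∀ k : Multiplicative E, Multiplicative.toAdd k ∈ V →
      (Set.range (fun w => (x (A.act k w))⁻¹ * A.res k w * x w)).Finite := by
    intro k hk
    have hsub : Set.range (fun w => (x (A.act k w))⁻¹ * A.res k w * x w) ⊆
        {1} ∪ (fun w => (x (A.act k w))⁻¹ * A.res k w * x w) ''
          {w : List (ZMod 2) | w.length < n₀} := by
      rintro _ ⟨w, rfl⟩
      by_cases hw : w.length < n₀
      · exact Or.inr ⟨w, hw, rfl⟩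
      · left
        rw [Set.mem_singleton_iff]
        have h1 : x (A.act k w) = A.res k w * x w := by
          show Multiplicative.ofAdd (shift (addw (Multiplicative.toAdd k) w).length
            (L (addw (Multiplicative.toAdd k) w).length (tf (addw (Multiplicative.toAdd k) w)))) =
            Multiplicative.ofAdd (shift w.length (Multiplicative.toAdd k) +
              shift w.length (L w.length (tf w)))
          rw [addw_length, tf_addw, map_add, hL w.length (by omega) _ hk, shift_add]
        show (x (A.act k w))⁻¹ * A.res k w * x w = 1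
        rw [h1, mul_assoc, inv_mul_cancel]
    refine Set.Finite.subset ((Set.finite_singleton _).union (Set.Finite.image _ ?_)) hsub
    exact List.finite_length_lt _ _
  exact ⟨x, hx0, key g (Submodule.subset_span (by simp)), key h (Submodule.subset_span (by simp))⟩

theorem result : ∃ (G X : Type) (_ : Group G) (_ : Finite X) (A : SelfSimilarAction G X),
    ¬ A.FiniteState ∧ A.FinitePropagation :=
  ⟨Multiplicative E, ZMod 2, inferInstance, inferInstance, A, not_finiteState, finitePropagation⟩

end Pool.Agent.Results.MP_3790b3_al.FinitePropagationNotFiniteState
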